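import Pool.Agent.H237Z.Sp.Super

universe u

open Pool.Agent.H237Z.Sp in
/-- Over every field of characteristic zero there is a Spechtian variety of algebras which is not
generated by the Grassmann envelope of a finitely generated superalgebra. -/
theorem Pool.Agent.Results.MP_1670b2_al.ACounterexample.result
    (F : Type u) [Field F] [CharZero F] :
    ∃ S : Set (FN F), Spechtian F S ∧ ¬ HasFiniteBasicSuperrank F S :=
  ⟨SS F, spechtian, not_finite⟩
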